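import Pool.Agent.Lib.MP_aa7e4d_lc.Interfaces

/-!
# Partial isomorphisms of frames, and the values at `e` after the reorientation REOR1
-/

open FirstOrder FirstOrder.Language

namespace Pool.Agent.SFC.H48

/-- a new element without parents -/
theorem pick0 {N : Type} (F : Frame N) (hF : F.Generic) (S : Finset N) (κ : Kind) (U : Set N) :
    ∃ v, v ∉ S ∧ F.kind v = κ ∧ (∀ i, F.f i v = v) ∧ ∀ u ∈ S, (F.R v u ↔ u ∈ U) := by
  obtain ⟨v, hv, hk, h0, -, hR⟩ := hF S κ (fun _ => none) U (by intro i y h; cases h)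
  exact ⟨v, hv, hk, fun i => h0 i rfl, hR⟩

theorem ev_mem {N : Type} {F : Frame N} {A : Set N} (hcl : ∀ x ∈ A, ∀ i, F.f i x ∈ A) :
    ∀ (w : List Fn) (x : N), x ∈ A → F.ev w x ∈ A
  | [], _, hx => hx
  | i :: w, x, hx => by
    rw [Frame.ev_cons]
    exact hcl _ (ev_mem hcl w x hx) i

theorem ev_map {N₁ N₂ : Type} {F₁ : Frame N₁} {F₂ : Frame N₂} {A : Set N₁} {h : N₁ → N₂}
    (hcl : ∀ x ∈ A, ∀ i, F₁.f i x ∈ A) (hf : ∀ x ∈ A, ∀ i, F₂.f i (h x) = h (F₁.f i x)) :
    ∀ (w : List Fn) (x : N₁), x ∈ A → F₂.ev w (h x) = h (F₁.ev w x)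
  | [], _, _ => rfl
  | i :: w, x, hx => by
    rw [Frame.ev_cons, Frame.ev_cons, ev_map hcl hf w x hx, hf _ (ev_mem hcl w x hx)]

/-- A partial isomorphism on a closed set preserves everything up to every depth. -/
theorem approx_lift {N₁ N₂ : Type} {F₁ : Frame N₁} {F₂ : Frame N₂} (A : Set N₁) (h : N₁ → N₂)
    (hcl : ∀ x ∈ A, ∀ i, F₁.f i x ∈ A) (hinj : Set.InjOn h A)
    (hf : ∀ x ∈ A, ∀ i, F₂.f i (h x) = h (F₁.f i x))
    (hk : ∀ x ∈ A, F₂.kind (h x) = F₁.kind x)
    (hR : ∀ x ∈ A, ∀ y ∈ A, (F₂.R (h x) (h y) ↔ F₁.R x y))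
    {α : Type} (u : α → N₁) (u' : α → N₂) (hu : ∀ s, u s ∈ A) (hu' : ∀ s, u' s = h (u s))
    (d : ℕ) : Approx F₁ F₂ d u u' := by
  have e : ∀ (w : List Fn) (s : α), F₂.ev w (u' s) = h (F₁.ev w (u s)) := fun w s => by
    rw [hu' s, ev_map hcl hf w _ (hu s)]
  have m : ∀ (w : List Fn) (s : α), F₁.ev w (u s) ∈ A := fun w s => ev_mem hcl w _ (hu s)
  refine ⟨?_, ?_, ?_⟩
  · intro s t w w' _ _
    rw [e, e]
    exact (hinj.eq_iff (m w s) (m w' t)).symm
  · intro s w _
    rw [e]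
    exact (hk _ (m w s)).symm
  · intro s t w w' _ _
    rw [e, e]
    exact (hR _ (m w s) _ (m w' t)).symm

/-- the functions with the wrong kind of argument are trivial -/
theorem f_point {N : Type} (F : Frame N) {x : N} (hx : F.kind x ≠ .L) :
    F.f .r0 x = x ∧ F.f .r1 x = x := by
  constructor
  · by_contra hne
    have h1 := F.f_ok .r0 x hne
    revert h1 hx
    cases F.kind x <;> simp [ok]
  · by_contra hne
    have h1 := F.f_ok .r1 x hne
    revert h1 hx
    cases F.kind x <;> simp [ok]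

theorem f_line {N : Type} (F : Frame N) {x : N} (hx : F.kind x = .L) : F.f .p x = x := by
  by_contra hne
  have h1 := F.f_ok .p x hne
  rw [hx] at h1
  simp [ok] at h1

/-- The reorientation REOR1 with the values of the new functions at `e`. -/
theorem reor1x (hr1 : Reor1Statement) {N : Type} [Lang.Structure N] (F : Frame N)
    (hF : F.Generic) (hC : Compat F) (b e : N) (hb : F.kind b = .B) (he : F.kind e = .L)
    (hfe : ∀ i, F.f i e = e) (hpb : F.f .p b = e) :
    ∃ F' : Frame N, F'.Generic ∧ Compat F' ∧ F'.kind = F.kind ∧ F'.R = F.R ∧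
      (∀ i, F'.f i b = b) ∧ (∀ x, x ≠ b → x ≠ e → ∀ i, F'.f i x = F.f i x) ∧
      F'.f .r1 e = b ∧ F'.f .r0 e = e ∧ F'.f .p e = e := by
  obtain ⟨F', hF', hC', hk', hR', hb', hx'⟩ := hr1 N F hF hC b e hb he hfe hpb
  have hbe : b ≠ e := fun h => by rw [h, he] at hb; cases hb
  have inc_iff : ∀ x l, F'.Inc x l ↔ F.Inc x l := by
    intro x l
    have h1 := hC.2.1 ![x, l]
    have h2 := hC'.2.1 ![x, l]
    exact h2.symm.trans h1
  have h1 : F'.f .r1 e = b := by
    have h2 : F'.Inc b e := (inc_iff b e).2 ⟨by rw [hb]; decide, he, Or.inl hpb⟩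
    rcases h2.2.2 with h3 | h3 | h3
    · exact absurd ((hb' .p).symm.trans h3) hbe
    · exfalso
      have h4 := F'.f_ok .r0 e (by rw [h3]; exact hbe)
      rw [hk', h3, he, hb] at h4
      simp [ok] at h4
    · exact h3
  refine ⟨F', hF', hC', hk', hR', hb', hx', h1, ?_, ?_⟩
  · by_contra hne
    have h4 := F'.f_ok .r0 e hne
    rw [hk', he] at h4
    have hky : F.kind (F'.f .r0 e) = .A := by
      revert h4
      cases F.kind (F'.f .r0 e) <;> simp [ok]
    have h5 : F'.Inc (F'.f .r0 e) e :=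
      ⟨by rw [hk', hky]; decide, by rw [hk', he], Or.inr (Or.inl rfl)⟩
    have h6 := (inc_iff _ _).1 h5
    have hyb : F'.f .r0 e ≠ b := fun h => by
      rw [h, hb] at hky
      cases hky
    have h7 : F.f .p (F'.f .r0 e) = e := by
      rcases h6.2.2 with h8 | h8 | h8
      · exact h8
      · rw [hfe] at h8
        exact absurd h8.symm hne
      · rw [hfe] at h8
        exact absurd h8.symm hne
    have h9 : F'.f .p (F'.f .r0 e) = e := (hx' _ hyb hne .p).trans h7
    have h10 : F'.lt (F'.f .r0 e) e := F'.f_lt .r0 e hne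
    have h11 : F'.lt (F'.f .p (F'.f .r0 e)) (F'.f .r0 e) :=
      F'.f_lt .p _ (by rw [h9]; exact fun h => hne h.symm)
    rw [h9] at h11
    exact F'.lt_irrefl _ (F'.lt_trans _ _ _ h10 h11)
  · exact f_line F' (by rw [hk', he])

end Pool.Agent.SFC.H48
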