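import Pool.Agent.Lib.MP_aa7e4d_lc.H87.Nat

/-!
# The generic frame on the natural numbers, with parents below their children
-/

namespace Pool.Agent.SFC.H48

open H87 in
theorem frame_generic : H87.frame.Generic := by
  classical
  intro S κ g U hg
  have hinj : Function.Injective
      (fun t : ℕ => code.symm ((κ, g, S.filter (· ∈ U), t) : Code)) := by
    intro a b h
    have := code.symm.injective h
    simpa using this
  obtain ⟨v, ⟨t, ht⟩, hv⟩ := (Set.infinite_range_of_injective hinj).exists_gt (S.sup id)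
  have hc : code v = (κ, g, S.filter (· ∈ U), t) := by
    rw [← ht]; simp
  have hlt : ∀ u ∈ S, u < v := fun u hu => lt_of_le_of_lt (Finset.le_sup (f := id) hu) hv
  have hkd : kd v = κ := by unfold kd; rw [hc]
  refine ⟨v, fun h => lt_irrefl _ (hlt v h), hkd, ?_, ?_, ?_⟩
  · intro i hi
    exact par_none i v (by rw [hc]; exact hi)
  · intro i y hi
    obtain ⟨hyS, hok⟩ := hg i y hi
    exact par_some i v y (by rw [hc]; exact hi) (hlt y hyS) (by rw [hkd]; exact hok)
  · intro u hu
    show rel v u ↔ u ∈ U
    have hlu := hlt u hu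
    unfold rel
    rw [hc]
    constructor
    · rintro (⟨_, h⟩ | ⟨h, _⟩)
      · exact (Finset.mem_filter.1 h).2
      · exact absurd (lt_trans h hlu) (lt_irrefl _)
    · intro h
      exact Or.inl ⟨hlu, Finset.mem_filter.2 ⟨hu, h⟩⟩

theorem frame_le (i : Fn) (x : ℕ) : H87.frame.f i x ≤ x := by
  by_cases h : H87.par i x = x
  · exact h.le
  · exact (H87.par_spec i x h).2.1.le

theorem exists_frame : ∃ F : Frame ℕ, F.Generic ∧ ∀ i x, F.f i x ≤ x :=
  ⟨H87.frame, frame_generic, frame_le⟩

end Pool.Agent.SFC.H48
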