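import Pool.Agent.Lib.MP_aa7e4d_lc.H48.Lift

/-!
# Copies of a finite closed set along one line

`S` is a finite closed set, `b ∈ S` a `B`-point without parents, `S₀ ⊆ S` a closed set,
`b ∉ S₀`.  In the frame there are a line `e'` without parents, copies `g n` of
`S` over `S₀` in which only the parent line `e'` of `g n b` is new, and children `A n` of `e'`
with prescribed relations to the copies, except that `R (A m) (g n b)` holds exactly for `m < n`.
-/

namespace Pool.Agent.SFC.H48

/-- the conditions on a pair `(A, g)`; `K` is larger than all elements of `S` and the elements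
`t + K`, `t ∈ S`, are used to recognize the elements of the copies -/
structure PG (F : Frame ℕ) (S S₀ : Finset ℕ) (K b e : ℕ) (Ra Re : ℕ → Prop) (Rea : Prop)
    (q : ℕ × (ℕ → ℕ)) : Prop where
  kA : F.kind q.1 = .A
  pA : F.f .p q.1 = e
  AS : q.1 ∉ S
  AK : ∀ t ∈ S, q.1 ≠ t + K
  fix : ∀ s ∈ S₀, q.2 s = s
  new : ∀ s ∈ S, s ∉ S₀ → q.2 s ∉ S
  kg : ∀ s ∈ S, F.kind (q.2 s) = F.kind s
  fg : ∀ s ∈ S, s ≠ b → ∀ i, F.f i (q.2 s) = q.2 (F.f i s)
  pb : F.f .p (q.2 b) = e
  inj : Set.InjOn q.2 S
  ge : ∀ s ∈ S, q.2 s ≠ e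
  gA : ∀ s ∈ S, q.2 s ≠ q.1
  Rgg : ∀ s ∈ S, ∀ t ∈ S, (F.R (q.2 s) (q.2 t) ↔ F.R s t)
  RAg : ∀ s ∈ S, (F.R q.1 (q.2 s) ↔ (s ≠ b ∧ Ra s))
  Reg : ∀ s ∈ S, (F.R e (q.2 s) ↔ Re s)
  ReA : F.R e q.1 ↔ Rea
  mark : ∀ s ∈ S, s ∉ S₀ → ∀ t ∈ S, (F.R (q.2 s) (t + K) ↔ s = t)

/-- the conditions on two pairs -/
structure QG (F : Frame ℕ) (S : Finset ℕ) (b : ℕ) (Ra : ℕ → Prop)
    (q q' : ℕ × (ℕ → ℕ)) : Prop where
  gA : ∀ s ∈ S, q'.2 s ≠ q.1
  Ag : ∀ s ∈ S, q.2 s ≠ q'.1
  R1 : ∀ s ∈ S, (F.R q.1 (q'.2 s) ↔ (s = b ∨ Ra s))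
  R2 : ∀ s ∈ S, (F.R q'.1 (q.2 s) ↔ (s ≠ b ∧ Ra s))

theorem seqG (hExt : ExtStatement) (F : Frame ℕ) (hF : F.Generic) (hle : ∀ i x, F.f i x ≤ x)
    (S S₀ : Finset ℕ) (hS : ∀ x ∈ S, ∀ i, F.f i x ∈ S) (hS₀ : S₀ ⊆ S)
    (hf₀ : ∀ x ∈ S₀, ∀ i, F.f i x ∈ S₀) (b : ℕ) (hbS : b ∈ S) (hbS₀ : b ∉ S₀)
    (hb : F.kind b = .B) (Ra Re : ℕ → Prop) (Rea : Prop) :
    ∃ (e' : ℕ) (A : ℕ → ℕ) (g : ℕ → ℕ → ℕ), F.kind e' = .L ∧ (∀ i, F.f i e' = e') ∧
      (∀ n, F.kind (A n) = .A) ∧ (∀ n, F.f .p (A n) = e') ∧
      (∀ n, ∀ s ∈ S₀, g n s = s) ∧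
      (∀ n, ∀ s ∈ S, F.kind (g n s) = F.kind s) ∧
      (∀ n, ∀ s ∈ S, s ≠ b → ∀ i, F.f i (g n s) = g n (F.f i s)) ∧
      (∀ n, F.f .p (g n b) = e') ∧ (∀ n, Set.InjOn (g n) S) ∧ (∀ n, ∀ s ∈ S, g n s ≠ e') ∧
      (∀ m n, ∀ s ∈ S, g n s ≠ A m) ∧
      (∀ n, ∀ s ∈ S, ∀ t ∈ S, (F.R (g n s) (g n t) ↔ F.R s t)) ∧
      (∀ m n, ∀ s ∈ S, s ≠ b → (F.R (A m) (g n s) ↔ Ra s)) ∧
      (∀ m n, (F.R (A m) (g n b) ↔ m < n)) ∧
      (∀ n, ∀ s ∈ S, (F.R e' (g n s) ↔ Re s)) ∧ (∀ n, (F.R e' (A n) ↔ Rea)) := by
  classical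
  obtain ⟨K, hK⟩ : ∃ K, ∀ s ∈ S, s < K :=
    ⟨S.sup id + 1, fun s hs => Nat.lt_succ_of_le (Finset.le_sup (f := id) hs)⟩
  have hKS : ∀ t, t + K ∉ S := fun t h => by
    have := hK _ h
    omega
  obtain ⟨e, heS', hke, hfe, hRe⟩ := pick0 F hF (S ∪ S.image (fun s => s + K)) .L {z | Re z}
  have heS : e ∉ S := fun h => heS' (Finset.mem_union_left _ h)
  have heK : ∀ t ∈ S, t + K ≠ e := fun t ht h => heS' (Finset.mem_union_right _
    (Finset.mem_image.2 ⟨t, ht, h⟩))
  have sy : ∀ x y, F.R x y ↔ F.R y x := fun x y => ⟨F.R_symm x y, F.R_symm y x⟩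
  obtain ⟨q, hP, hQ⟩ := exists_seq_of_forall_finset_exists (PG F S S₀ K b e Ra Re Rea)
      (QG F S b Ra) (by
    intro l hl
    let T : Finset ℕ := insert e ((S ∪ S.image (fun s => s + K)) ∪ (l.image (fun q => q.1) ∪
      l.biUnion (fun q => S.image q.2)))
    have heT : e ∈ T := Finset.mem_insert_self _ _
    have hST : ∀ s ∈ S, s ∈ T := fun s hs => Finset.mem_insert_of_mem
      (Finset.mem_union_left _ (Finset.mem_union_left _ hs))
    have hKT : ∀ s ∈ S, s + K ∈ T := fun s hs => Finset.mem_insert_of_mem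
      (Finset.mem_union_left _ (Finset.mem_union_right _ (Finset.mem_image.2 ⟨s, hs, rfl⟩)))
    have hAT : ∀ q ∈ l, q.1 ∈ T := fun q hq => Finset.mem_insert_of_mem
      (Finset.mem_union_right _ (Finset.mem_union_left _ (Finset.mem_image.2 ⟨q, hq, rfl⟩)))
    have hgT : ∀ q ∈ l, ∀ s ∈ S, q.2 s ∈ T := fun q hq s hs => Finset.mem_insert_of_mem
      (Finset.mem_union_right _ (Finset.mem_union_right _
        (Finset.mem_biUnion.2 ⟨q, hq, Finset.mem_image.2 ⟨s, hs, rfl⟩⟩)))
    clear_value T
    have hfin : Finite {x // x ∈ S ∧ x ∉ S₀} :=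
      Finite.of_injective (fun x : {x // x ∈ S ∧ x ∉ S₀} => (⟨x.1, x.2.1⟩ : {x // x ∈ S}))
        (fun x y h => Subtype.ext (by simpa using h))
    obtain ⟨E, hinj, hET, hkE, hE0, hE1, hE2, hEQ, hEU⟩ := hExt ℕ F hF
      (Option {x // x ∈ S ∧ x ∉ S₀})
      (fun x => x.elim 0 (fun s => (s : ℕ)))
      (fun x => x.elim .A (fun s => F.kind s))
      (fun x i => x.elim (if i = .p then some (Sum.inr e) else none)
        (fun s => if (s : ℕ) = b then (if i = .p then some (Sum.inr e) else none)
          else if F.f i s = s then none else if h : F.f i s ∈ S₀ then some (Sum.inr (F.f i s))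
          else some (Sum.inl (some ⟨F.f i s, hS s s.2.1 i, h⟩))))
      T
      (fun x y => x.elim (y.elim False (fun t => (t : ℕ) ≠ b ∧ Ra t))
        (fun s => y.elim ((s : ℕ) ≠ b ∧ Ra s) (fun t => F.R s t)))
      (fun x z => x.elim ((z = e ∧ Rea) ∨ (z ∈ S₀ ∧ Ra z) ∨
          (z ≠ e ∧ z ∉ S₀ ∧ ∃ s ∈ S, F.R z (s + K) ∧ s ≠ b ∧ Ra s))
        (fun s => (z = e ∧ Re s) ∨ (z ∈ S₀ ∧ F.R s z) ∨ ((∃ t ∈ S, z = t + K) ∧ z = s + K) ∨
          (z ≠ e ∧ z ∉ S ∧ (∀ t ∈ S, z ≠ t + K) ∧ ((s : ℕ) = b ∨ Ra s))))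
      (by
        rintro (_ | s) i y h
        · simp only [Option.elim_none] at h
          by_cases hi : i = .p
          · rw [if_pos hi] at h
            cases h
          · rw [if_neg hi] at h
            cases h
        · simp only [Option.elim_some] at h
          by_cases hsb : (s : ℕ) = b
          · rw [if_pos hsb] at h
            by_cases hi : i = .p
            · rw [if_pos hi] at h
              cases h
            · rw [if_neg hi] at h
              cases h
          · rw [if_neg hsb] at h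
            by_cases hfs : F.f i s = s
            · rw [if_pos hfs] at h
              cases h
            · rw [if_neg hfs] at h
              by_cases h0 : F.f i s ∈ S₀
              · rw [dif_pos h0] at h
                cases h
              · rw [dif_neg h0] at h
                cases h
                exact ⟨lt_of_le_of_ne (hle i s) hfs, F.f_ok i s hfs⟩)
      (by
        rintro (_ | s) i y h
        · simp only [Option.elim_none] at h
          by_cases hi : i = .p
          · rw [if_pos hi] at h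
            cases h
            refine ⟨heT, ?_⟩
            subst hi
            rw [hke]
            trivial
          · rw [if_neg hi] at h
            cases h
        · simp only [Option.elim_some] at h
          by_cases hsb : (s : ℕ) = b
          · rw [if_pos hsb] at h
            by_cases hi : i = .p
            · rw [if_pos hi] at h
              cases h
              refine ⟨heT, ?_⟩
              subst hi
              simp only [Option.elim_some]
              rw [hke, hsb, hb]
              trivial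
            · rw [if_neg hi] at h
              cases h
          · rw [if_neg hsb] at h
            by_cases hfs : F.f i s = s
            · rw [if_pos hfs] at h
              cases h
            · rw [if_neg hfs] at h
              by_cases h0 : F.f i s ∈ S₀
              · rw [dif_pos h0] at h
                cases h
                exact ⟨hST _ (hS₀ h0), F.f_ok i s hfs⟩
              · rw [dif_neg h0] at h
                cases h)
      (by
        rintro (_ | s) (_ | t) h
        · exact h
        · exact h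
        · exact h
        · exact F.R_symm _ _ h)
      (by
        rintro (_ | s) h
        · exact h
        · exact F.R_irrefl _ h)
    set g : ℕ → ℕ := fun s => if h : s ∈ S ∧ s ∉ S₀ then E (some ⟨s, h⟩) else s with hg
    have hgs : ∀ s (h : s ∈ S ∧ s ∉ S₀), g s = E (some ⟨s, h⟩) := fun s h => by
      simp only [hg, dif_pos h]
    have hg0 : ∀ s ∈ S₀, g s = s := fun s hs => by
      simp only [hg]
      rw [dif_neg]
      exact fun h => h.2 hs
    have hgT' : ∀ s ∈ S, s ∉ S₀ → g s ∉ T := fun s hs h0 => by rw [hgs s ⟨hs, h0⟩]; exact hET _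
    have hRg : ∀ s (hs : s ∈ S ∧ s ∉ S₀), ∀ z ∈ T, (F.R (g s) z ↔ ((z = e ∧ Re s) ∨
        (z ∈ S₀ ∧ F.R s z) ∨ ((∃ t ∈ S, z = t + K) ∧ z = s + K) ∨
        (z ≠ e ∧ z ∉ S ∧ (∀ t ∈ S, z ≠ t + K) ∧ (s = b ∨ Ra s)))) := by
      intro s hs z hz
      rw [hgs s hs, hEU _ z hz]
      rfl
    have hRA : ∀ z ∈ T, (F.R (E none) z ↔ ((z = e ∧ Rea) ∨ (z ∈ S₀ ∧ Ra z) ∨
        (z ≠ e ∧ z ∉ S₀ ∧ ∃ s ∈ S, F.R z (s + K) ∧ s ≠ b ∧ Ra s))) := by
      intro z hz
      rw [hEU _ z hz]
      rfl
    have he0 : ∀ s ∈ S₀, s ≠ e := fun s hs h => heS (h ▸ hS₀ hs)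
    have hb0 : ∀ s ∈ S₀, s ≠ b := fun s hs h => hbS₀ (h ▸ hs)
    have hK0 : ∀ s ∈ S₀, ∀ t, s ≠ t + K := fun s hs t h => hKS t (h ▸ hS₀ hs)
    -- `R` between an element of a copy and an element of `S₀`
    have hRg0 : ∀ s ∈ S, s ∉ S₀ → ∀ z ∈ S₀, (F.R (g s) z ↔ F.R s z) := by
      intro s hs h0 z hz
      rw [hRg s ⟨hs, h0⟩ z (hST z (hS₀ hz))]
      simp [he0 z hz, hz, hK0 z hz, hS₀ hz]
    have hRA0 : ∀ z ∈ S₀, (F.R (E none) z ↔ Ra z) := by
      intro z hz
      rw [hRA z (hST z (hS₀ hz))]
      simp [he0 z hz, hz]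
    refine ⟨(E none, g), ?_, ?_⟩
    · exact {
        kA := hkE none
        pA := hE2 none .p e (by simp)
        AS := fun H => hET none (hST _ H)
        AK := fun t ht H => hET none (by rw [show E none = t + K from H]; exact hKT t ht)
        fix := hg0
        new := fun s hs h0 H => hgT' s hs h0 (hST _ H)
        kg := fun s hs => by
          show F.kind (g s) = _
          by_cases h0 : s ∈ S₀
          · rw [hg0 s h0]
          · rw [hgs s ⟨hs, h0⟩, hkE]
            rfl
        fg := fun s hs hsb i => by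
          show F.f i (g s) = g (F.f i s)
          by_cases h0 : s ∈ S₀
          · rw [hg0 s h0, hg0 _ (hf₀ s h0 i)]
          · rw [hgs s ⟨hs, h0⟩]
            by_cases hfs : F.f i s = s
            · rw [hfs, hgs s ⟨hs, h0⟩]
              exact hE0 _ i (by simp [hsb, hfs])
            · by_cases h1 : F.f i s ∈ S₀
              · rw [hg0 _ h1]
                exact hE2 _ i _ (by simp [hsb, hfs, h1])
              · rw [hgs _ ⟨hS s hs i, h1⟩]
                exact hE1 _ i _ (by simp [hsb, hfs, h1])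
        pb := by
          show F.f .p (g b) = e
          rw [hgs b ⟨hbS, hbS₀⟩]
          exact hE2 _ .p e (by simp)
        inj := by
          intro s hs t ht hst
          have h1 : g s = g t := hst
          by_cases h0 : s ∈ S₀
          · by_cases h0' : t ∈ S₀
            · rw [hg0 s h0, hg0 t h0'] at h1
              exact h1
            · rw [hg0 s h0] at h1
              exact absurd (h1 ▸ hST s (hS₀ h0)) (hgT' t ht h0')
          · by_cases h0' : t ∈ S₀
            · rw [hg0 t h0'] at h1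
              exact absurd (h1 ▸ hST t (hS₀ h0')) (hgT' s hs h0)
            · rw [hgs s ⟨hs, h0⟩, hgs t ⟨ht, h0'⟩] at h1
              have h2 := hinj h1
              simpa using h2
        ge := fun s hs H => by
          by_cases h0 : s ∈ S₀
          · have H1 : g s = e := H
            rw [hg0 s h0] at H1
            exact he0 s h0 H1
          · exact hgT' s hs h0 (by rw [show g s = e from H]; exact heT)
        gA := fun s hs H => by
          have h1 : g s = E none := H
          by_cases h0 : s ∈ S₀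
          · rw [hg0 s h0] at h1
            exact hET none (h1 ▸ hST s hs)
          · rw [hgs s ⟨hs, h0⟩] at h1
            have h2 := hinj h1
            simp at h2
        Rgg := fun s hs t ht => by
          show F.R (g s) (g t) ↔ _
          by_cases h0 : s ∈ S₀
          · by_cases h0' : t ∈ S₀
            · rw [hg0 s h0, hg0 t h0']
            · rw [hg0 s h0, sy, hRg0 t ht h0' s h0, sy]
          · by_cases h0' : t ∈ S₀
            · rw [hg0 t h0', hRg0 s hs h0 t h0']
            · rw [hgs s ⟨hs, h0⟩, hgs t ⟨ht, h0'⟩, hEQ]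
              rfl
        RAg := fun s hs => by
          show F.R (E none) (g s) ↔ _
          by_cases h0 : s ∈ S₀
          · rw [hg0 s h0, hRA0 s h0]
            simp [hb0 s h0]
          · rw [hgs s ⟨hs, h0⟩, hEQ]
            rfl
        Reg := fun s hs => by
          show F.R e (g s) ↔ _
          by_cases h0 : s ∈ S₀
          · rw [hg0 s h0, hRe s (Finset.mem_union_left _ hs)]
            rfl
          · rw [sy, hRg s ⟨hs, h0⟩ e heT]
            have h1 : e ∉ S₀ := fun h => heS (hS₀ h)
            have h2 : ∀ t ∈ S, e ≠ t + K := fun t ht h => heK t ht h.symm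
            have h3 : e ≠ s + K := h2 s hs
            simp [h1, h3]
        ReA := by
          show F.R e (E none) ↔ _
          rw [sy, hRA e heT]
          have h1 : e ∉ S₀ := fun h => heS (hS₀ h)
          simp [h1]
        mark := fun s hs h0 t ht => by
          show F.R (g s) (t + K) ↔ _
          rw [hRg s ⟨hs, h0⟩ (t + K) (hKT t ht)]
          have h1 : t + K ∉ S₀ := fun h => hKS t (hS₀ h)
          have h2 : t + K ≠ e := heK t ht
          constructor
          · rintro (⟨h3, -⟩ | ⟨h3, -⟩ | ⟨-, h3⟩ | ⟨-, -, h3, -⟩)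
            · exact absurd h3 h2
            · exact absurd h3 h1
            · omega
            · exact absurd rfl (h3 t ht)
          · intro h3
            exact Or.inr (Or.inr (Or.inl ⟨⟨t, ht, rfl⟩, by rw [h3]⟩)) }
    · intro q hq
      have hqP := hl q hq
      have hqe : q.1 ≠ e := fun h => by
        have h1 := hqP.kA
        rw [h, hke] at h1
        cases h1
      have hq0 : q.1 ∉ S₀ := fun h => hqP.AS (hS₀ h)
      exact {
        gA := fun s hs H => by
          have H1 : g s = q.1 := H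
          by_cases h0 : s ∈ S₀
          · rw [hg0 s h0] at H1
            exact hq0 (H1 ▸ h0)
          · exact hgT' s hs h0 (by rw [H1]; exact hAT q hq)
        Ag := fun s hs H => hET none (by rw [← show q.2 s = E none from H]; exact hgT q hq s hs)
        R1 := fun s hs => by
          show F.R q.1 (g s) ↔ _
          by_cases h0 : s ∈ S₀
          · have h1 := hqP.RAg s hs
            rw [hqP.fix s h0] at h1
            rw [hg0 s h0, h1]
            simp [hb0 s h0]
          · rw [sy, hRg s ⟨hs, h0⟩ q.1 (hAT q hq)]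
            have h1 : ¬ ((∃ t ∈ S, q.1 = t + K) ∧ q.1 = s + K) := by
              rintro ⟨-, h2⟩
              exact hqP.AK s hs h2
            constructor
            · rintro (⟨h2, -⟩ | ⟨h2, -⟩ | h2 | ⟨-, -, -, h2⟩)
              · exact absurd h2 hqe
              · exact absurd h2 hq0
              · exact absurd h2 h1
              · exact h2
            · intro h2
              exact Or.inr (Or.inr (Or.inr ⟨hqe, hqP.AS, hqP.AK, h2⟩))
        R2 := fun s hs => by
          show F.R (E none) (q.2 s) ↔ _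
          by_cases h0 : s ∈ S₀
          · rw [hqP.fix s h0, hRA0 s h0]
            simp [hb0 s h0]
          · rw [hRA _ (hgT q hq s hs)]
            have hn : q.2 s ∉ S₀ := fun h => hqP.new s hs h0 (hS₀ h)
            constructor
            · rintro (⟨h1, -⟩ | ⟨h1, -⟩ | ⟨-, -, t, ht, h2, h3⟩)
              · exact absurd h1 (hqP.ge s hs)
              · exact absurd h1 hn
              · rw [hqP.mark s hs h0 t ht] at h2
                rw [h2]
                exact h3
            · intro h3
              exact Or.inr (Or.inr ⟨hqP.ge s hs, hn, s, hs, (hqP.mark s hs h0 s hs).2 rfl, h3⟩) })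
  refine ⟨e, fun n => (q n).1, fun n => (q n).2, hke, hfe, fun n => (hP n).kA,
    fun n => (hP n).pA, fun n => (hP n).fix, fun n => (hP n).kg, fun n => (hP n).fg,
    fun n => (hP n).pb,
    fun n => (hP n).inj, fun n => (hP n).ge, ?_, fun n => (hP n).Rgg, ?_, ?_,
    fun n => (hP n).Reg, fun n => (hP n).ReA⟩
  · intro m n s hs
    rcases lt_trichotomy m n with h | h | h
    · exact (hQ m n h).gA s hs
    · subst h
      exact (hP m).gA s hs
    · exact (hQ n m h).Ag s hs
  · intro m n s hs hsb
    rcases lt_trichotomy m n with h | h | h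
    · rw [(hQ m n h).R1 s hs]
      simp [hsb]
    · subst h
      rw [(hP m).RAg s hs]
      simp [hsb]
    · rw [(hQ n m h).R2 s hs]
      simp [hsb]
  · intro m n
    rcases lt_trichotomy m n with h | h | h
    · rw [(hQ m n h).R1 b hbS]
      simp [h]
    · subst h
      rw [(hP m).RAg b hbS]
      simp
    · rw [(hQ n m h).R2 b hbS]
      simp [not_lt.2 h.le]

end Pool.Agent.SFC.H48
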