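import Pool.Agent.Lib.MP_aa7e4d_lc.H48.Sub
import Pool.Agent.Lib.MP_aa7e4d_lc.H48.SeqG
import Pool.Agent.Lib.MP_aa7e4d_lc.H48.NatLe
import Pool.Agent.Lib.MP_aa7e4d_lc.H48.Div
import Pool.Agent.Lib.MP_aa7e4d_lc.H6.Assembly

/-!
# The counterexample for types over models
-/

open FirstOrder FirstOrder.Language

namespace Pool.Agent.SFC.H48

/-- The points of the counterexample: `b` a `B`-point without parents, `e` a line with the only
parent `b`, `a` an `A`-point which is a child of `e`, and `R a b`. -/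
structure Pts (F : Frame ℕ) (a b e : ℕ) : Prop where
  ka : F.kind a = .A
  pa : F.f .p a = e
  kb : F.kind b = .B
  fb : ∀ i, F.f i b = b
  ke : F.kind e = .L
  e1 : F.f .r1 e = b
  e0 : F.f .r0 e = e
  Rab : F.R a b

theorem exists_pts (F : Frame ℕ) (hF : F.Generic) : ∃ a b e, Pts F a b e := by
  obtain ⟨b, -, kb, fb, -⟩ := pick0 F hF ∅ .B ∅
  obtain ⟨e, -, ke, he0, he1, -⟩ := hF {b} .L (fun i => if i = .r1 then some b else none) ∅ (by
    intro i y h
    by_cases hi : i = .r1
    · subst hi
      rw [if_pos rfl] at h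
      cases h
      refine ⟨Finset.mem_singleton_self _, ?_⟩
      rw [kb]
      trivial
    · rw [if_neg hi] at h
      cases h)
  obtain ⟨a, -, ka, -, ha1, hR⟩ := hF {b, e} .A (fun i => if i = .p then some e else none) {b} (by
    intro i y h
    by_cases hi : i = .p
    · subst hi
      rw [if_pos rfl] at h
      cases h
      refine ⟨by simp, ?_⟩
      rw [ke]
      trivial
    · rw [if_neg hi] at h
      cases h)
  exact ⟨a, b, e, ka, ha1 .p e (if_pos rfl), kb, fb, ke, he1 .r1 b (if_pos rfl),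
    he0 .r0 (if_neg (by decide)), (hR b (by simp)).2 rfl⟩

theorem a_ne_e {F : Frame ℕ} {a b e : ℕ} (P : Pts F a b e) : a ≠ e := fun h => by
  have h1 := P.ka
  rw [h, P.ke] at h1
  cases h1

theorem b_ne_e {F : Frame ℕ} {a b e : ℕ} (P : Pts F a b e) : b ≠ e := fun h => by
  have h1 := P.kb
  rw [h, P.ke] at h1
  cases h1

theorem a_ne_b {F : Frame ℕ} {a b e : ℕ} (P : Pts F a b e) : a ≠ b := fun h => by
  have h1 := P.ka
  rw [h, P.kb] at h1
  cases h1

theorem adj_ab {F : Frame ℕ} {a b e : ℕ} (P : Pts F a b e) : F.Adj a b := by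
  refine ⟨P.ka, P.kb, P.Rab, Or.inl ⟨?_, ?_⟩⟩
  · rw [P.pa]
    exact fun h => a_ne_e P h.symm
  · rw [P.pa]
    exact ⟨by rw [P.kb]; decide, P.ke, Or.inr (Or.inr P.e1)⟩

theorem fixed_below {F : Frame ℕ} {e x : ℕ} (hx : ∀ i, F.f i x = x) (hne : x ≠ e) :
    x ∈ below F e := by
  intro w
  rw [H35.ev_fixed hx w]
  exact hne

/-- The half graph: let `C` be a closed set, `b ∉ C`, which contains all elements without
parents except `b`.  A formula `φ(x; d)` with parameters not above `e`, which is true of `a` and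
has no solution in `C`, has the order property, with all parameters in `C` kept fixed. -/
theorem unstable (hDet : DetStatement) (hExt : ExtStatement) (hR1 : Reor1Statement)
    (hR2 : Reor2Statement) [Lang.Structure ℕ] (F : Frame ℕ) (hF : F.Generic) (hC : Compat F)
    (hle : ∀ i x, F.f i x ≤ x) (a b e : ℕ) (P : Pts F a b e) (C : Set ℕ)
    (hCcl : ∀ x ∈ C, ∀ i, F.f i x ∈ C) (hbC : b ∉ C)
    (hC0 : ∀ x, (∀ i, F.f i x = x) → x ≠ b → x ∈ C)
    (r : ℕ) (φ : Lang.Formula (Fin 1 ⊕ Fin r)) (d : Fin r → ℕ) (hd : ∀ i, d i ∈ below F e)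
    (hφ : φ.Realize (Sum.elim (fun _ => a) d))
    (hφc : ∀ c ∈ C, ¬ φ.Realize (Sum.elim (fun _ => c) d)) :
    ∃ (A : ℕ → ℕ) (g : ℕ → ℕ → ℕ), (∀ j k, d k ∈ C → g j (d k) = d k) ∧
      ∀ i j : ℕ, (φ.Realize (Sum.elim (fun _ => A i) (fun k => g j (d k))) ↔ i < j) := by
  classical
  -- a finite closed set containing `b` and the parameters
  obtain ⟨K, hbK, hdK⟩ : ∃ K, b < K ∧ ∀ i, d i < K := by
    refine ⟨(b + ∑ i, d i) + 1, by omega, fun i => ?_⟩
    have h1 : d i ≤ ∑ i, d i :=
      Finset.single_le_sum (f := d) (fun _ _ => Nat.zero_le _) (Finset.mem_univ i)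
    omega
  set S : Finset ℕ := (Finset.range K).filter (fun x => x ∈ below F e) with hSdef
  have hSK : ∀ x ∈ S, x < K := fun x hx => Finset.mem_range.1 (Finset.mem_filter.1 hx).1
  have hSb : ∀ x ∈ S, x ∈ below F e := fun x hx => (Finset.mem_filter.1 hx).2
  have hS : ∀ x ∈ S, ∀ i, F.f i x ∈ S := fun x hx i => Finset.mem_filter.2
    ⟨Finset.mem_range.2 (lt_of_le_of_lt (hle i x) (hSK x hx)), below_closed F e x (hSb x hx) i⟩
  have hbS : b ∈ S := Finset.mem_filter.2
    ⟨Finset.mem_range.2 hbK, fixed_below P.fb (b_ne_e P)⟩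
  have hdS : ∀ i, d i ∈ S := fun i => Finset.mem_filter.2 ⟨Finset.mem_range.2 (hdK i), hd i⟩
  have heS : e ∉ S := fun h => not_mem_below F e (hSb e h)
  have haS : a ∉ S := fun h => hSb a h [.p] (by simpa using P.pa)
  set S₀ : Finset ℕ := S.filter (fun x => x ∈ C) with hS₀def
  have hS₀ : S₀ ⊆ S := Finset.filter_subset _ _
  have hf₀ : ∀ x ∈ S₀, ∀ i, F.f i x ∈ S₀ := fun x hx i =>
    Finset.mem_filter.2 ⟨hS x (Finset.mem_filter.1 hx).1 i, hCcl x (Finset.mem_filter.1 hx).2 i⟩
  have hbS₀ : b ∉ S₀ := fun hx => hbC (Finset.mem_filter.1 hx).2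
  obtain ⟨e', A, g, ke', fe', kA, pA, gfix, kg, fg, pg, ginj, gne, gA, Rgg, RAg, RAb, Reg, ReA⟩ :=
    seqG hExt F hF hle S S₀ hS hS₀ hf₀ b hbS hbS₀ P.kb (F.R a) (F.R e) (F.R e a)
  obtain ⟨c, hcS, kc, fc, hcn⟩ := pick0 F hF S .A {z | z ≠ b ∧ F.R a z}
  have hcC : c ∈ C := hC0 c fc (fun h => hcS (h ▸ hbS))
  have kgb : ∀ j, F.kind (g j b) = .B := fun j => by rw [kg j b hbS, P.kb]
  have sy : ∀ x y, F.R x y ↔ F.R y x := fun x y => ⟨F.R_symm x y, F.R_symm y x⟩
  have Ane : ∀ i, A i ≠ e' := fun i h => by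
    have h1 := kA i
    rw [h, ke'] at h1
    cases h1
  obtain ⟨D, hD⟩ := hDet _ φ
  refine ⟨A, g, fun j k hk => gfix j _ (Finset.mem_filter.2 ⟨hdS k, hk⟩), fun i j => ?_⟩
  by_cases hij : i < j
  · refine ⟨fun _ => hij, fun _ => ?_⟩
    obtain ⟨F', hF', hC', hk', hR', fb', fx', r1', r0', p'⟩ := reor1x hR1 F hF hC (g j b) e'
      (kgb j) ke' fe' (pg j)
    set h : ℕ → ℕ := fun x => if x = a then A i else if x = e then e' else g j x with hh
    have ha : h a = A i := by simp [hh]
    have he : h e = e' := by simp [hh, (a_ne_e P).symm]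
    have hs : ∀ s ∈ S, h s = g j s := fun s hs => by
      have h1 : s ≠ a := fun h => haS (h ▸ hs)
      have h2 : s ≠ e := fun h => heS (h ▸ hs)
      simp [hh, h1, h2]
    have hcl : ∀ x ∈ insert a (insert e (S : Set ℕ)), ∀ i,
        F.f i x ∈ insert a (insert e (S : Set ℕ)) := by
      rintro x (rfl | rfl | hx) i
      · cases i
        · rw [P.pa]
          exact Or.inr (Or.inl rfl)
        · rw [(f_point F (by rw [P.ka]; decide)).1]
          exact Or.inl rfl
        · rw [(f_point F (by rw [P.ka]; decide)).2]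
          exact Or.inl rfl
      · cases i
        · rw [f_line F P.ke]
          exact Or.inr (Or.inl rfl)
        · rw [P.e0]
          exact Or.inr (Or.inl rfl)
        · rw [P.e1]
          exact Or.inr (Or.inr hbS)
      · exact Or.inr (Or.inr (hS x hx i))
    have key : Approx F F' D (Sum.elim (fun _ => a) d)
        (Sum.elim (fun _ => A i) (fun k => g j (d k)) : Fin 1 ⊕ Fin r → ℕ) := by
      refine approx_lift _ h hcl ?_ ?_ ?_ ?_ _ _ ?_ ?_ D
      · rintro x (rfl | rfl | hx) y (rfl | rfl | hy) hxy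
        · rfl
        · rw [ha, he] at hxy
          exact absurd hxy (Ane i)
        · rw [ha, hs y hy] at hxy
          exact absurd hxy.symm (gA i j y hy)
        · rw [ha, he] at hxy
          exact absurd hxy.symm (Ane i)
        · rfl
        · rw [he, hs y hy] at hxy
          exact absurd hxy.symm (gne j y hy)
        · rw [ha, hs x hx] at hxy
          exact absurd hxy (gA i j x hx)
        · rw [he, hs x hx] at hxy
          exact absurd hxy (gne j x hx)
        · rw [hs x hx, hs y hy] at hxy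
          exact ginj j hx hy hxy
      · rintro x (rfl | rfl | hx) l
        · rw [ha]
          cases l
          · rw [fx' (A i) (gA i j b hbS).symm (Ane i), pA, P.pa, he]
          · rw [(f_point F (by rw [P.ka]; decide)).1, ha]
            exact (f_point F' (by rw [hk', kA]; decide)).1
          · rw [(f_point F (by rw [P.ka]; decide)).2, ha]
            exact (f_point F' (by rw [hk', kA]; decide)).2
        · rw [he]
          cases l
          · rw [f_line F P.ke, he]
            exact p'
          · rw [P.e0, he]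
            exact r0'
          · rw [P.e1, hs b hbS]
            exact r1'
        · rw [hs x hx, hs _ (hS x hx l)]
          by_cases hxb : x = b
          · rw [hxb, P.fb, fb']
          · have h1 : g j x ≠ g j b := fun H => hxb (ginj j hx hbS H)
            rw [fx' _ h1 (gne j x hx), fg j x hx hxb]
      · rw [hk']
        rintro x (rfl | rfl | hx)
        · rw [ha, kA, P.ka]
        · rw [he, ke', P.ke]
        · rw [hs x hx, kg j x hx]
      · rw [hR']
        have RAs : ∀ s ∈ S, (F.R (A i) (g j s) ↔ F.R a s) := by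
          intro s hs
          by_cases hsb : s = b
          · rw [hsb, RAb]
            exact ⟨fun _ => P.Rab, fun _ => hij⟩
          · exact RAg i j s hs hsb
        rintro x (rfl | rfl | hx) y (rfl | rfl | hy)
        · simp [F.R_irrefl]
        · rw [ha, he, sy, ReA, sy]
        · rw [ha, hs y hy, RAs y hy]
        · rw [ha, he, ReA]
        · simp [F.R_irrefl]
        · rw [he, hs y hy, Reg j y hy]
        · rw [ha, hs x hx, sy, RAs x hx, sy]
        · rw [he, hs x hx, sy, Reg j x hx, sy]
        · rw [hs x hx, hs y hy, Rgg j x hx y hy]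
      · rintro (s | s)
        · exact Or.inl rfl
        · exact Or.inr (Or.inr (hdS s))
      · rintro (s | s)
        · exact ha.symm
        · exact (hs _ (hdS s)).symm
    exact (hD ℕ ℕ F F' hF hF' hC hC' _ _ key).1 hφ
  · refine ⟨fun hr => ?_, fun h => absurd h hij⟩
    exfalso
    have hnR : ¬ F.R (A i) (g j b) := fun H => hij ((RAb i j).1 H)
    obtain ⟨F', hF', hC', hk', hR', fa', fb', fx'⟩ := hR2 ℕ F hF hC (A i) (g j b) e' (kA i)
      (kgb j) ke' fe' (pA i) (pg j) hnR
    set h : ℕ → ℕ := fun x => if x = c then A i else g j x with hh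
    have hc0 : h (c) = A i := by simp [hh]
    have hs : ∀ s ∈ S, h s = g j s := fun s hs => by
      have h1 : s ≠ c := fun h => hcS (h ▸ hs)
      simp [hh, h1]
    have hcl : ∀ x ∈ insert (c) (S : Set ℕ), ∀ i, F.f i x ∈ insert (c) (S : Set ℕ) := by
      rintro x (rfl | hx) i
      · rw [fc]
        exact Or.inl rfl
      · exact Or.inr (hS x hx i)
    have key : Approx F F' D (Sum.elim (fun _ => c) d)
        (Sum.elim (fun _ => A i) (fun k => g j (d k)) : Fin 1 ⊕ Fin r → ℕ) := by
      refine approx_lift _ h hcl ?_ ?_ ?_ ?_ _ _ ?_ ?_ D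
      · rintro x (rfl | hx) y (rfl | hy) hxy
        · rfl
        · rw [hc0, hs y hy] at hxy
          exact absurd hxy.symm (gA i j y hy)
        · rw [hc0, hs x hx] at hxy
          exact absurd hxy (gA i j x hx)
        · rw [hs x hx, hs y hy] at hxy
          exact ginj j hx hy hxy
      · rintro x (rfl | hx) l
        · rw [hc0, fc, hc0]
          exact fa' l
        · rw [hs x hx, hs _ (hS x hx l)]
          by_cases hxb : x = b
          · rw [hxb, P.fb, fb']
          · have h1 : g j x ≠ g j b := fun H => hxb (ginj j hx hbS H)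
            rw [fx' _ (gA i j x hx) h1 (gne j x hx), fg j x hx hxb]
      · rw [hk']
        rintro x (rfl | hx)
        · rw [hc0, kA, kc]
        · rw [hs x hx, kg j x hx]
      · rw [hR']
        have RAs : ∀ s ∈ S, (F.R (A i) (g j s) ↔ F.R (c) s) := by
          intro s hs
          by_cases hsb : s = b
          · rw [hsb, RAb, hcn b hbS]
            exact ⟨fun H => absurd H hij, fun H => absurd rfl H.1⟩
          · rw [RAg i j s hs hsb, hcn s hs]
            exact ⟨fun H => ⟨hsb, H⟩, fun H => H.2⟩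
        rintro x (rfl | hx) y (rfl | hy)
        · simp [F.R_irrefl]
        · rw [hc0, hs y hy, RAs y hy]
        · rw [hc0, hs x hx, sy, RAs x hx, sy]
        · rw [hs x hx, hs y hy, Rgg j x hx y hy]
      · rintro (s | s)
        · exact Or.inl rfl
        · exact Or.inr (hdS s)
      · rintro (s | s)
        · exact hc0.symm
        · exact (hs _ (hdS s)).symm
    exact hφc c hcC ((hD ℕ ℕ F F' hF hF' hC hC' _ _ key).2 hr)

/-- The main theorem: the base `M₀` of the type is a model, and all formulas over a larger model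
`M` are considered. -/
theorem model :
    ∃ T : Lang.Theory, T.IsComplete ∧ Simple T ∧
      ∃ (N : Type) (_ : Lang.Structure N) (_ : Nonempty N) (_ : N ⊨ T) (_ : Countable N)
        (M₀ M : Lang.ElementarySubstructure N) (a b : N),
        (M₀ : Set N) ⊆ (M : Set N) ∧ b ∈ (M : Set N) ∧
        TypeForks (L := Lang) (M₀ : Set N) ((M₀ : Set N) ∪ {b}) (fun _ : Fin 1 => a) ∧
        ∀ (r : ℕ) (φ : Lang.Formula (Fin 1 ⊕ Fin r)) (d : Fin r → N),
          (∀ s, d s ∈ (M : Set N)) →
          φ.Realize (Sum.elim (fun _ => a) d) → Forks (M₀ : Set N) φ d →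
          ∃ (A : ℕ → N) (D : ℕ → Fin r → N), (∀ j s, d s ∈ (M₀ : Set N) → D j s = d s) ∧
            ∀ i j, (φ.Realize (Sum.elim (fun _ => A i) (D j)) ↔ i < j) := by
  obtain ⟨F, hF, hle⟩ := exists_frame
  let _ : Lang.Structure ℕ := F.str
  have hC : Compat F := F.compat_str
  obtain ⟨a, b, e, P⟩ := exists_pts F hF
  have hbb : b ∉ below F b := not_mem_below F b
  refine ⟨Lang.completeTheory ℕ, (completeTheory.isMaximal Lang ℕ).isComplete,
    H6.simp' ℕ F hF hC, ℕ, inferInstance, inferInstance, inferInstance, inferInstance,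
    subE H6.det F hF hC b, subE H6.det F hF hC e, a, b, ?_, ?_, ?_, ?_⟩
  · show below F b ⊆ below F e
    intro x hx w hw
    refine hx (.r1 :: w) ?_
    rw [Frame.ev_cons, hw, P.e1]
  · exact fixed_below P.fb (b_ne_e P)
  · refine ⟨1, H6.adjF, fun _ => b, fun _ => Or.inr rfl, ?_, H6.forks_of_divides ?_⟩
    · rw [H6.realize_adjF hC]
      exact adj_ab P
    · exact divides_adj H6.det hF hC b P.kb P.fb (below F b) (below_closed F b) hbb
  · intro r φ d hd hφ hfork
    obtain ⟨A, g, hg, hAg⟩ := unstable H6.det H30.ext H36.reor1 H36.reor2 F hF hC hle a b e P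
      (below F b) (below_closed F b) hbb (fun x hx hxb => fixed_below hx hxb) r φ d hd hφ
      (fun c hc => H87.nofork Lang ℕ (below F b) r φ d hfork c hc)
    exact ⟨A, fun j k => g j (d k), hg, hAg⟩

end Pool.Agent.SFC.H48
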