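import Pool.Agent.Lib.MP_aa7e4d_lc.Defs

/-!
# Stable forking for types over models
-/

open FirstOrder FirstOrder.Language

namespace Pool.Agent.SFC

section

variable {L : FirstOrder.Language.{0, 0}} {α : Type}

/-- Stable forking for types over models: whenever `M₀ ⊆ M` are elementary substructures of a
model `N` of `T` and the type over `M` of a finite tuple `a` of `N` forks over `M₀`, it contains
a formula `φ(x; d)` (`d` a tuple of elements of `M`) that forks over `M₀` and such that
`φ(x; y)` is stable. -/
def StableForkingOverModels (T : L.Theory) : Prop :=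
  ∀ (N : Type) [L.Structure N] [Nonempty N], N ⊨ T → ∀ M₀ M : L.ElementarySubstructure N,
    (M₀ : Set N) ⊆ (M : Set N) → ∀ (m : ℕ) (a : Fin m → N),
    TypeForks (L := L) (M₀ : Set N) (M : Set N) a →
    ∃ (r : ℕ) (φ : L.Formula (Fin m ⊕ Fin r)) (d : Fin r → N),
      (∀ i, d i ∈ (M : Set N)) ∧ StableFormula T φ ∧ φ.Realize (Sum.elim a d) ∧
        Forks (M₀ : Set N) φ d

theorem TypeForks.mono {M : Type} [L.Structure M] {C B B' : Set M} {a : α → M}
    (h : TypeForks (L := L) C B a) (hB : B ⊆ B') : TypeForks (L := L) C B' a := by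
  obtain ⟨n, φ, d, hd, h1, h2⟩ := h
  exact ⟨n, φ, d, fun i => hB (hd i), h1, h2⟩

end

end Pool.Agent.SFC
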