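import Pool.Agent.Lib.MP_aa7e4d_lc.H48.Lift
import Pool.Agent.Lib.MP_aa7e4d_lc.H19.Det
import Pool.Agent.Lib.MP_aa7e4d_lc.H47.Step
import Pool.Agent.Lib.MP_aa7e4d_lc.H30.Ext

/-!
# The elementary substructure of all elements which are not above a given element
-/

open FirstOrder FirstOrder.Language

namespace Pool.Agent.SFC.H48

/-- the set of all elements which do not have `e` among their iterated parents -/
def below {N : Type} (F : Frame N) (e : N) : Set N := {x | ∀ w, F.ev w x ≠ e}

theorem below_closed {N : Type} (F : Frame N) (e : N) :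
    ∀ x ∈ below F e, ∀ i, F.f i x ∈ below F e := by
  intro x hx i w hw
  refine hx (w ++ [i]) ?_
  rw [← hw]
  simp [Frame.ev, List.foldr_append]

theorem not_mem_below {N : Type} (F : Frame N) (e : N) : e ∉ below F e := fun h => h [] rfl

/-- the substructure of the elements which are not above `e` -/
def subS {N : Type} [Lang.Structure N] (F : Frame N) (e : N) : Lang.Substructure N where
  carrier := below F e
  fun_mem := fun f => Empty.elim f

theorem mem_subS {N : Type} [Lang.Structure N] (F : Frame N) (e x : N) :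
    x ∈ subS F e ↔ x ∈ below F e := Iff.rfl

/-- its frame -/
def subF {N : Type} [Lang.Structure N] (F : Frame N) (e : N) : Frame (subS F e) where
  kind x := F.kind x
  f i x := ⟨F.f i x, below_closed F e x x.2 i⟩
  R x y := F.R x y
  lt x y := F.lt x y
  lt_irrefl x := F.lt_irrefl x
  lt_trans x y z := F.lt_trans x y z
  f_lt i x h := F.f_lt i x (fun h' => h (Subtype.ext h'))
  f_ok i x h := F.f_ok i x (fun h' => h (Subtype.ext h'))
  R_symm x y := F.R_symm x y
  R_irrefl x := F.R_irrefl x

theorem subF_generic {N : Type} [Lang.Structure N] (F : Frame N) (e : N) (hF : F.Generic) :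
    (subF F e).Generic := by
  classical
  intro S κ g U hg
  obtain ⟨v, hv, hk, h0, h1, hR⟩ := hF (insert e (S.image Subtype.val)) κ
    (fun i => (g i).map Subtype.val) (Subtype.val '' U) (by
      intro i y hy
      rcases hgi : g i with _ | z
      · simp [hgi] at hy
      · simp only [hgi, Option.map_some, Option.some.injEq] at hy
        subst hy
        exact ⟨Finset.mem_insert_of_mem (Finset.mem_image.2 ⟨z, (hg i z hgi).1, rfl⟩),
          (hg i z hgi).2⟩)
  have hve : v ≠ e := fun h => hv (by rw [h]; exact Finset.mem_insert_self _ _)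
  have hcl : ∀ x ∈ insert v (below F e), ∀ i, F.f i x ∈ insert v (below F e) := by
    rintro x (rfl | hx) i
    · rcases hgi : g i with _ | z
      · rw [h0 i (by simp [hgi])]
        exact Set.mem_insert _ _
      · rw [h1 i z (by simp [hgi])]
        exact Set.mem_insert_of_mem _ z.2
    · exact Set.mem_insert_of_mem _ (below_closed F e x hx i)
  have hvb : v ∈ below F e := by
    intro w hw
    have h2 := ev_mem hcl w v (Set.mem_insert _ _)
    rw [hw] at h2
    rcases h2 with h2 | h2
    · exact hve h2.symm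
    · exact not_mem_below F e h2
  refine ⟨⟨v, hvb⟩, ?_, hk, ?_, ?_, ?_⟩
  · intro h
    exact hv (Finset.mem_insert_of_mem (Finset.mem_image.2 ⟨_, h, rfl⟩))
  · intro i hi
    exact Subtype.ext (h0 i (by simp [hi]))
  · intro i y hi
    exact Subtype.ext (h1 i y (by simp [hi]))
  · intro u hu
    show F.R v u ↔ u ∈ U
    rw [hR u (Finset.mem_insert_of_mem (Finset.mem_image.2 ⟨u, hu, rfl⟩))]
    exact Subtype.val_injective.mem_set_image

theorem subF_inc {N : Type} [Lang.Structure N] (F : Frame N) (e : N) (x y : subS F e) :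
    (subF F e).Inc x y ↔ F.Inc x y := by
  show (F.kind x ≠ .L ∧ F.kind y = .L ∧ ((⟨F.f .p x, _⟩ : subS F e) = y ∨
    (⟨F.f .r0 y, _⟩ : subS F e) = x ∨ (⟨F.f .r1 y, _⟩ : subS F e) = x)) ↔
    (F.kind x ≠ .L ∧ F.kind y = .L ∧ (F.f .p x = y ∨ F.f .r0 y = x ∨ F.f .r1 y = x))
  simp only [Subtype.ext_iff]

theorem subF_adj {N : Type} [Lang.Structure N] (F : Frame N) (e : N) (x y : subS F e) :
    (subF F e).Adj x y ↔ F.Adj x y := by
  have h1 : (subF F e).f .p x ≠ x ↔ F.f .p x ≠ x := by
    rw [Ne, Ne, Subtype.ext_iff]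
    rfl
  have h2 : (subF F e).f .p y ≠ y ↔ F.f .p y ≠ y := by
    rw [Ne, Ne, Subtype.ext_iff]
    rfl
  show ((subF F e).kind x = .A ∧ (subF F e).kind y = .B ∧ (subF F e).R x y ∧
    (((subF F e).f .p x ≠ x ∧ (subF F e).Inc y ((subF F e).f .p x)) ∨
      ((subF F e).f .p y ≠ y ∧ (subF F e).Inc x ((subF F e).f .p y)))) ↔
    (F.kind x = .A ∧ F.kind y = .B ∧ F.R x y ∧
    ((F.f .p x ≠ x ∧ F.Inc y (F.f .p x)) ∨ (F.f .p y ≠ y ∧ F.Inc x (F.f .p y))))
  rw [h1, h2, subF_inc, subF_inc]
  rfl

theorem subF_compat {N : Type} [Lang.Structure N] (F : Frame N) (e : N) (hC : Compat F) :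
    Compat (subF F e) := by
  refine ⟨fun κ v => ?_, fun v => ?_, fun v => ?_⟩
  · exact hC.1 κ (fun i => (v i : N))
  · rw [subF_inc]
    exact hC.2.1 (fun i => (v i : N))
  · rw [subF_adj]
    exact hC.2.2 (fun i => (v i : N))

/-- the elementary substructure -/
def subE (hDet : DetStatement) {N : Type} [Lang.Structure N] (F : Frame N) (hF : F.Generic)
    (hC : Compat F) (e : N) : Lang.ElementarySubstructure N where
  toSubstructure := subS F e
  isElementary' := by
    intro n φ x
    obtain ⟨D, hD⟩ := hDet _ φ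
    refine (hD _ _ (subF F e) F (subF_generic F e hF) hF (subF_compat F e hC) hC x _ ?_).symm
    exact approx_lift Set.univ Subtype.val (fun _ _ _ => trivial)
      Subtype.val_injective.injOn (fun _ _ _ => rfl) (fun _ _ => rfl) (fun _ _ _ _ => Iff.rfl)
      x _ (fun _ => trivial) (fun _ => rfl) D

theorem mem_subE (hDet : DetStatement) {N : Type} [Lang.Structure N] (F : Frame N)
    (hF : F.Generic) (hC : Compat F) (e x : N) : x ∈ subE hDet F hF hC e ↔ x ∈ below F e :=
  Iff.rfl

end Pool.Agent.SFC.H48
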